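import Pool.Agent.Helper819.Pi.Main

/-!
For all `N ≥ 1` and `d ≥ 2` the moduli space `M_d^N(ℂ)` of degree `d` endomorphisms of `ℙ^N` is
simply connected: it is path connected and its fundamental group is trivial.
-/

namespace Pool.Agent.Results.MP_a3f63f_ag.SimplyConnected

open Pool.Agent.Helper819.PiOne

theorem result (N d : ℕ) (hN : 1 ≤ N) (hd : 2 ≤ d) :
    PathConnectedSpace (ModuliSpace N d) ∧
      ∀ x : ModuliSpace N d, Subsingleton (FundamentalGroup (ModuliSpace N d) x) := by
  obtain ⟨m, rfl⟩ : ∃ m, N = m + 1 := ⟨N - 1, by omega⟩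
  have h := simplyConnected_moduli m d hd
  exact ⟨inferInstance, fun x => inferInstance⟩

end Pool.Agent.Results.MP_a3f63f_ag.SimplyConnected
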